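import Pool.Agent.N71.RP.Stm

set_option autoImplicit false

namespace Pool.Agent.N456.RP

open Finset Pool.Agent.N71.RP
open scoped Classical

theorem t_CC (hFOUR : E_FOUR) (hSMOG : E_SMOG) (hPOS : E_POS) : E_CC := by
  obtain ⟨a₀, hS⟩ := hSMOG
  obtain ⟨a, ha⟩ : ∃ a : ℕ, a = max 64 a₀ := ⟨_, rfl⟩
  obtain ⟨X₀, hX₀, hF⟩ := hFOUR a (by omega)
  refine ⟨Real.exp (-(a : ℝ)) / 4, X₀, by positivity, hX₀, ?_⟩
  intro X hX f₁ f₂ h1 h2 h3 β hβ hβ1 hg
  have hX3 : 3 ≤ X := hX₀.trans hX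
  have hXr : (3 : ℝ) ≤ X := by exact_mod_cast hX3
  have hlog : 0 < Real.log X := Real.log_pos (by linarith)
  have hb : 0 < 1 - β := by linarith
  have hbl : (1 - β) * Real.log X ≤ 1 := by
    have h4 : 1 - β ≤ 1 / Real.log X := by linarith
    calc (1 - β) * Real.log X ≤ 1 / Real.log X * Real.log X :=
          mul_le_mul_of_nonneg_right h4 hlog.le
      _ = 1 := by field_simp
  have hfour := hF X hX f₁ f₂ h1 h2 h3 β hβ hβ1 hg
  obtain ⟨-, hr, -, hr1⟩ := hPOS f₁ f₂ _ h1 h2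
  have hsm := (hS a (by omega) X (by omega) f₁ f₂ _ h1 h2).2
  obtain ⟨P, hP⟩ : ∃ P : ℝ, P = la f₁ (X ^ 16) * la f₂ (X ^ 16) *
    la (fun n => f₁ n * f₂ n) (X ^ 16) := ⟨_, rfl⟩
  obtain ⟨S, hSd⟩ : ∃ S : ℝ, S = ∑ n ∈ Finset.Icc 1 (X ^ a), r4 f₁ f₂ n * (n : ℝ) ^ (-β) := ⟨_, rfl⟩
  obtain ⟨W, hW⟩ : ∃ W : ℝ, W = ((X : ℝ) ^ a) ^ (1 - β) := ⟨_, rfl⟩
  obtain ⟨U, hU⟩ : ∃ U : ℝ, U = PP f₁ X * PP f₂ X * PP (fun n => f₁ n * f₂ n) X := ⟨_, rfl⟩
  rw [← hP, ← hSd, ← hW] at hfour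
  rw [← hP, ← hU]
  have hXa : 1 ≤ X ^ a := Nat.one_le_pow _ _ (by omega)
  -- the first term
  have hS1 : 1 ≤ S := by
    rw [hSd]
    have h5 : r4 f₁ f₂ 1 * ((1 : ℕ) : ℝ) ^ (-β) ≤
        ∑ n ∈ Finset.Icc 1 (X ^ a), r4 f₁ f₂ n * (n : ℝ) ^ (-β) :=
      Finset.single_le_sum (f := fun n : ℕ => r4 f₁ f₂ n * (n : ℝ) ^ (-β))
        (fun n _ => mul_nonneg (hr n) (Real.rpow_nonneg (Nat.cast_nonneg n) _))
        (Finset.mem_Icc.2 ⟨le_rfl, hXa⟩)
    rw [hr1, Nat.cast_one, Real.one_rpow, one_mul] at h5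
    exact h5
  -- compare with the sum at one
  have hS2 : 1 / 2 * (Real.log X * U) ≤ S := by
    have h6 : 1 / 2 * (Real.log X * U) =
        1 / 2 * (Real.log X * PP f₁ X * PP f₂ X * PP (fun n => f₁ n * f₂ n) X) := by
      rw [hU]; ring
    rw [h6, hSd]
    refine hsm.trans (Finset.sum_le_sum fun n hn => ?_)
    have hn1 : (1 : ℝ) ≤ n := by exact_mod_cast (Finset.mem_Icc.1 hn).1
    rw [div_eq_mul_inv]
    refine mul_le_mul_of_nonneg_left ?_ (hr n)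
    rw [← Real.rpow_neg_one]
    exact Real.rpow_le_rpow_of_exponent_le hn1 (by linarith)
  have hW0 : 0 < W := by rw [hW]; positivity
  have hWe : W ≤ Real.exp a := by
    rw [hW, ← Real.rpow_natCast, ← Real.rpow_mul (by linarith),
      Real.rpow_def_of_pos (by linarith)]
    refine Real.exp_le_exp.2 ?_
    have ha0 : (0 : ℝ) ≤ a := Nat.cast_nonneg a
    calc Real.log X * ((a : ℝ) * (1 - β)) = (a : ℝ) * ((1 - β) * Real.log X) := by ring
      _ ≤ (a : ℝ) * 1 := mul_le_mul_of_nonneg_left hbl ha0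
      _ = a := mul_one _
  have h7 : S / 2 ≤ P / (1 - β) * W := by linarith
  have hPb : 0 ≤ P / (1 - β) := by
    by_contra hcon
    push Not at hcon
    have := mul_neg_of_neg_of_pos hcon hW0
    linarith
  have h8 : S / 2 ≤ P / (1 - β) * Real.exp a := h7.trans (mul_le_mul_of_nonneg_left hWe hPb)
  have h9 : 1 / 4 * (Real.log X * U) ≤ P / (1 - β) * Real.exp a := by linarith
  have h10 : (1 - β) * (1 / 4 * (Real.log X * U)) ≤ P * Real.exp a := by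
    have h11 := mul_le_mul_of_nonneg_left h9 hb.le
    have h12 : (1 - β) * (P / (1 - β) * Real.exp a) = P * Real.exp a := by
      field_simp
    rw [h12] at h11
    exact h11
  have h13 := mul_le_mul_of_nonneg_left h10 (Real.exp_pos (-(a : ℝ))).le
  have h14 : Real.exp (-(a : ℝ)) * (P * Real.exp a) = P := by
    rw [Real.exp_neg]
    field_simp
  rw [h14] at h13
  refine le_trans (le_of_eq ?_) h13
  ring

end Pool.Agent.N456.RP
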